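import Pool.Agent.H71.AL.Targets

/-!
# Row ESW: points in good intervals are not special

The set of points in good intervals is open and does not meet the closure of the set of special
points.
-/

set_option autoImplicit false

open Set

open Pool.Agent.AL

namespace Pool.Agent.H96.ALV

/-- a limit of the iterates is a fixed point, case of limits from the left -/
theorem esw_left (f : ℝ → ℝ) (hf : ∀ a b, a < b → f a < f b) (hs : Function.Surjective f)
    (x y : ℝ) (h0 : y < x) (h1 : ∀ n : ℕ, f^[n] y < x)
    (h2 : ∀ z, z < x → ∃ n : ℕ, z < f^[n] y) : f x = x ∧ ∀ n : ℕ, f^[n] y < f (f^[n] y) := by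
  have hm : StrictMono f := fun a b h => hf a b h
  have h3 : y < f y := by
    by_contra hne
    push Not at hne
    have h4 : ∀ n : ℕ, f^[n] y ≤ y := by
      intro n
      induction n with
      | zero => exact le_refl _
      | succ n ih =>
        rw [Function.iterate_succ_apply]
        exact ((hm.monotone.iterate n) hne).trans ih
    obtain ⟨n, hn⟩ := h2 y h0
    exact absurd hn (not_lt.2 (h4 n))
  have h4 : ∀ n : ℕ, f^[n] y < f (f^[n] y) := by
    intro n
    rw [← Function.iterate_succ_apply' f n y, Function.iterate_succ_apply]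
    exact (hm.iterate n) h3
  refine ⟨le_antisymm ?_ ?_, h4⟩
  · by_contra hne
    push Not at hne
    obtain ⟨z, hz⟩ := hs x
    have hzx : z < x := by
      by_contra hne2
      push Not at hne2
      have := hm.monotone hne2
      rw [hz] at this
      exact absurd this (not_le.2 hne)
    obtain ⟨n, hn⟩ := h2 z hzx
    have h5 := hf _ _ hn
    rw [hz, ← Function.iterate_succ_apply' f n y] at h5
    exact absurd (h1 (n + 1)) (not_lt.2 h5.le)
  · by_contra hne
    push Not at hne
    obtain ⟨n, hn⟩ := h2 (f x) hne
    have h5 := hf _ _ (h1 n)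
    exact absurd (h5.trans (hn.trans (h4 n))) (lt_irrefl _)

/-- a limit of the iterates is a fixed point, case of limits from the right -/
theorem esw_right (f : ℝ → ℝ) (hf : ∀ a b, a < b → f a < f b) (hs : Function.Surjective f)
    (x y : ℝ) (h0 : x < y) (h1 : ∀ n : ℕ, x < f^[n] y)
    (h2 : ∀ z, x < z → ∃ n : ℕ, f^[n] y < z) : f x = x ∧ ∀ n : ℕ, f (f^[n] y) < f^[n] y := by
  have hm : StrictMono f := fun a b h => hf a b h
  have h3 : f y < y := by
    by_contra hne
    push Not at hne
    have h4 : ∀ n : ℕ, y ≤ f^[n] y := by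
      intro n
      induction n with
      | zero => exact le_refl _
      | succ n ih =>
        rw [Function.iterate_succ_apply]
        exact ih.trans ((hm.monotone.iterate n) hne)
    obtain ⟨n, hn⟩ := h2 y h0
    exact absurd hn (not_lt.2 (h4 n))
  have h4 : ∀ n : ℕ, f (f^[n] y) < f^[n] y := by
    intro n
    rw [← Function.iterate_succ_apply' f n y, Function.iterate_succ_apply]
    exact (hm.iterate n) h3
  refine ⟨le_antisymm ?_ ?_, h4⟩
  · by_contra hne
    push Not at hne
    obtain ⟨n, hn⟩ := h2 (f x) hne
    have h5 := hf _ _ (h1 n)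
    exact absurd ((h4 n).trans (hn.trans h5)) (lt_irrefl _)
  · by_contra hne
    push Not at hne
    obtain ⟨z, hz⟩ := hs x
    have hzx : x < z := by
      by_contra hne2
      push Not at hne2
      have := hm.monotone hne2
      rw [hz] at this
      exact absurd this (not_le.2 hne)
    obtain ⟨n, hn⟩ := h2 z hzx
    have h5 := hf _ _ hn
    rw [hz, ← Function.iterate_succ_apply' f n y] at h5
    exact absurd (h1 (n + 1)) (not_lt.2 h5.le)

/-- **ESW.** -/
theorem pf_ESW : T_ESW := by
  intro ι G hG
  have hopen : IsOpen {x | Ws rl G x} := by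
    rw [isOpen_iff_mem_nhds]
    rintro x ⟨p, q, hg, h1, h2⟩
    refine Filter.mem_of_superset (Ioo_mem_nhds h1 h2) ?_
    rintro z ⟨h3, h4⟩
    exact ⟨p, q, hg, h3, h4⟩
  have hsur : ∀ i, Function.Surjective (G i) := by
    intro i x
    obtain ⟨j, -, h⟩ := hG.inv i
    exact ⟨G j x, h x⟩
  have hE1 : ∀ x, E1 rl G x → ¬ Ws rl G x := by
    rintro x hx ⟨p, q, ⟨hpq, hg⟩, h1, h2⟩
    have h1' : p < x := h1
    have h2' : x < q := h2
    rcases hx with ⟨i, y, hinc, hlm⟩ | ⟨i, hdec, hfix⟩
    · have hid : G i x = x → ∀ z, p < z → z < q → G i z = z := by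
        intro hfix
        rcases hg i with h | h
        · refine absurd ⟨?_, ?_⟩ (h x h1 h2)
          · rw [hfix]
            exact h1
          · rw [hfix]
            exact h2
        · exact fun z hz hz' => h z hz hz'
      rcases hlm with ⟨h3, h4, h5⟩ | ⟨h3, h4, h5⟩
      · obtain ⟨hfix, hlt⟩ := esw_left (G i) hinc (hsur i) x y h3 h4 h5
        obtain ⟨n, hn⟩ := h5 p h1
        have h6 := hlt n
        rw [hid hfix _ hn ((h4 n).trans h2')] at h6
        exact absurd h6 (lt_irrefl _)
      · obtain ⟨hfix, hlt⟩ := esw_right (G i) hinc (hsur i) x y h3 h4 h5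
        obtain ⟨n, hn⟩ := h5 q h2
        have h6 := hlt n
        rw [hid hfix _ (h1'.trans (h4 n)) hn] at h6
        exact absurd h6 (lt_irrefl _)
    · rcases hg i with h | h
      · refine absurd ⟨?_, ?_⟩ (h x h1 h2)
        · rw [hfix]
          exact h1
        · rw [hfix]
          exact h2
      · have h3 : x < (x + q) / 2 := by linarith
        have h4 : (x + q) / 2 < q := by linarith
        have h5 : G i ((x + q) / 2) < G i x := hdec _ _ h3
        rw [hfix, h ((x + q) / 2) (h1'.trans h3) h4] at h5
        exact absurd (h3.trans h5) (lt_irrefl _)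
  refine ⟨hopen, hE1, ?_⟩
  intro x hx hw
  obtain ⟨z, hz, hz'⟩ := mem_closure_iff.1 hx {x | Ws rl G x} hopen hw
  rcases hz' with h | h
  · exact hE1 z h hz
  · exact h.1 hz

end Pool.Agent.H96.ALV
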